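import Mathlib

set_option autoImplicit false

open Filter Topology
open scoped ZeroAtInfty

namespace Pool.Agent.Results.MP_b108d3_an.HasSubspace

/-! ### The abstract part -/

section abstract_part

variable {X : Type} [NormedAddCommGroup X] [NormedSpace ℂ X]

theorem pow_comm_apply (A : X →L[ℂ] X) (m n : ℕ) (x : X) :
    (A ^ m) ((A ^ n) x) = (A ^ n) ((A ^ m) x) := by
  rw [← mul_apply_eq_comp, ← mul_apply_eq_comp, ← pow_add, ← pow_add, add_comm]

theorem trans_of_hyp [Nontrivial X] {A : X →L[ℂ] X} {x0 : X}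
    (hx0 : Dense (Set.range fun n : ℕ => (A ^ n) x0)) {U V : Set X} (hU : IsOpen U)
    (hUn : U.Nonempty) (hV : IsOpen V) (hVn : V.Nonempty) :
    ∃ n : ℕ, ∃ x ∈ U, (A ^ n) x ∈ V := by
  obtain ⟨_, hzU, ⟨a, rfl⟩⟩ := hx0.inter_open_nonempty U hU hUn
  have : ∀ x : X, NeBot (𝓝[≠] x) := fun x => Module.punctured_nhds_neBot ℂ X x
  have hd : Dense ((Set.range fun n : ℕ => (A ^ n) x0) \
      ((fun n : ℕ => (A ^ n) x0) '' (Set.Iio a))) :=
    hx0.sdiff_finite ((Set.finite_Iio a).image _)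
  obtain ⟨_, hzV, ⟨b, rfl⟩, hb⟩ := hd.inter_open_nonempty V hV hVn
  have hab : a ≤ b := by
    by_contra hlt
    exact hb ⟨b, not_le.mp hlt, rfl⟩
  refine ⟨b - a, (A ^ a) x0, hzU, ?_⟩
  rw [← mul_apply_eq_comp, ← pow_add, Nat.sub_add_cancel hab]
  exact hzV

theorem stepB [Nontrivial X] {A : X →L[ℂ] X} {x0 : X}
    (hx0 : Dense (Set.range fun n : ℕ => (A ^ n) x0)) {B : Set X} (hB : Dense B)
    (hBb : ∀ x ∈ B, ∃ C : ℝ, ∀ n : ℕ, ‖(A ^ n) x‖ ≤ C)
    {U V : Set X} (hU : IsOpen U)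
    (hUn : U.Nonempty) (hV : IsOpen V) (hVn : V.Nonempty) {δ : ℝ} (hδ : 0 < δ) :
    ∃ n : ℕ, ∃ x ∈ U, ‖(A ^ n) x‖ < δ ∧ ∃ w : X, ‖w‖ < δ ∧ (A ^ n) w ∈ V := by
  obtain ⟨u0, hu0, hu0B⟩ := hB.inter_open_nonempty U hU hUn
  obtain ⟨C, hC⟩ := hBb u0 hu0B
  have hC0 : 0 ≤ C := le_trans (norm_nonneg _) (hC 0)
  set ε : ℝ := δ / (C + 1) with hε
  have hεpos : 0 < ε := by positivity
  have hεC : ε * C < δ := by
    rw [hε, div_mul_eq_mul_div, div_lt_iff₀ (by linarith)]
    nlinarith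
  have hVs : IsOpen ((fun x : X => (ε : ℂ) • x) ⁻¹' V) :=
    hV.preimage (continuous_const_smul _)
  have hVsn : ((fun x : X => (ε : ℂ) • x) ⁻¹' V).Nonempty := by
    obtain ⟨v, hv⟩ := hVn
    refine ⟨(ε : ℂ)⁻¹ • v, ?_⟩
    show (ε : ℂ) • ((ε : ℂ)⁻¹ • v) ∈ V
    rw [smul_inv_smul₀ (by exact_mod_cast hεpos.ne')]
    exact hv
  obtain ⟨m, w, hw, hmw⟩ := trans_of_hyp hx0 (Metric.isOpen_ball (x := (0 : X)) (ε := δ))
    ⟨0, Metric.mem_ball_self hδ⟩ hVs hVsn
  set S : X →L[ℂ] X := (ε : ℂ) • A ^ m with hS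
  have hU' : IsOpen (U ∩ {x | ‖S x‖ < δ}) :=
    hU.inter (isOpen_lt (S.continuous.norm) continuous_const)
  have hSu0 : ‖S u0‖ < δ := by
    rw [hS, _root_.smul_apply, norm_smul, Complex.norm_real, Real.norm_eq_abs,
      abs_of_pos hεpos]
    exact lt_of_le_of_lt (mul_le_mul_of_nonneg_left (hC m) hεpos.le) hεC
  have hW' : IsOpen ({x : X | ‖x‖ < δ} ∩ S ⁻¹' V) :=
    (isOpen_lt continuous_norm continuous_const).inter (hV.preimage S.continuous)
  have hW'n : ({x : X | ‖x‖ < δ} ∩ S ⁻¹' V).Nonempty := by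
    refine ⟨w, ?_, ?_⟩
    · simpa using hw
    · exact hmw
  obtain ⟨n, x, ⟨hxU, hxS⟩, hxn⟩ := trans_of_hyp hx0 hU' ⟨u0, hu0, hSu0⟩ hW' hW'n
  refine ⟨n, x, hxU, hxn.1, S x, hxS, ?_⟩
  have h1 : (A ^ n) (S x) = S ((A ^ n) x) := by
    rw [hS, _root_.smul_apply, _root_.smul_apply, map_smul, pow_comm_apply]
  rw [h1]
  exact hxn.2

theorem stepC [Nontrivial X] {A : X →L[ℂ] X} {x0 : X}
    (hx0 : Dense (Set.range fun n : ℕ => (A ^ n) x0)) {B : Set X} (hB : Dense B)
    (hBb : ∀ x ∈ B, ∃ C : ℝ, ∀ n : ℕ, ‖(A ^ n) x‖ ≤ C)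
    (q : ℕ) (z y : ℕ → X) {δ : ℝ} (hδ : 0 < δ) :
    ∃ n : ℕ, ∃ p : ℕ → X, ∀ k < q, ‖p k‖ < δ ∧ ‖(A ^ n) (z k + p k) - y k‖ < δ := by
  have key : ∀ v : X, ∃ a : ℕ, ‖(A ^ a) x0 - v‖ < δ / 2 := by
    intro v
    obtain ⟨_, hb, ⟨a, rfl⟩⟩ := hx0.inter_open_nonempty (Metric.ball v (δ / 2))
      Metric.isOpen_ball ⟨v, Metric.mem_ball_self (by positivity)⟩
    exact ⟨a, by simpa [dist_eq_norm] using hb⟩
  choose a ha using fun k => key (z k)
  choose b hb using fun k => key (y k)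
  have hUo : ∀ (c : ℕ → ℕ) (v : ℕ → X),
      IsOpen {x : X | ∀ k ∈ Finset.range q, ‖(A ^ c k) x - v k‖ < δ / 2} := by
    intro c v
    have : {x : X | ∀ k ∈ Finset.range q, ‖(A ^ c k) x - v k‖ < δ / 2} =
        ⋂ k ∈ Finset.range q, {x : X | ‖(A ^ c k) x - v k‖ < δ / 2} := by
      ext x; simp
    rw [this]
    exact isOpen_biInter_finset fun k _ =>
      isOpen_lt (((A ^ c k).continuous.sub continuous_const).norm) continuous_const
  set L : ℝ := ∑ k ∈ Finset.range q, (‖A ^ a k‖ + ‖A ^ b k‖) with hL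
  have hL0 : 0 ≤ L := by positivity
  have hLa : ∀ k < q, ‖A ^ a k‖ ≤ L ∧ ‖A ^ b k‖ ≤ L := by
    intro k hk
    have h1 : ‖A ^ a k‖ + ‖A ^ b k‖ ≤ L :=
      Finset.single_le_sum (f := fun k => ‖A ^ a k‖ + ‖A ^ b k‖) (fun i _ => by positivity)
        (Finset.mem_range.mpr hk)
    have h2 := norm_nonneg (A ^ a k)
    have h3 := norm_nonneg (A ^ b k)
    constructor <;> linarith
  set δ' : ℝ := δ / (2 * (L + 1)) with hδ'
  have hδ'pos : 0 < δ' := by positivity
  have hLδ : L * δ' < δ / 2 := by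
    rw [hδ', ← mul_div_assoc, div_lt_div_iff₀ (by positivity) (by norm_num)]
    nlinarith
  obtain ⟨n, x, hx, hnx, w, hw, hnw⟩ := stepB hx0 hB hBb (hUo a z)
    ⟨x0, fun k _ => ha k⟩ (hUo b y) ⟨x0, fun k _ => hb k⟩ hδ'pos
  refine ⟨n, fun k => ((A ^ a k) x - z k) + (A ^ b k) w, fun k hk => ⟨?_, ?_⟩⟩
  · have h1 := hx k (Finset.mem_range.mpr hk)
    have h2 : ‖(A ^ b k) w‖ ≤ L * δ' :=
      ((A ^ b k).le_opNorm w).trans
        (mul_le_mul (hLa k hk).2 hw.le (norm_nonneg _) hL0)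
    calc ‖((A ^ a k) x - z k) + (A ^ b k) w‖ ≤ ‖(A ^ a k) x - z k‖ + ‖(A ^ b k) w‖ :=
          norm_add_le _ _
      _ < δ := by linarith
  · have h1 := hnw k (Finset.mem_range.mpr hk)
    have h2 : ‖(A ^ a k) ((A ^ n) x)‖ ≤ L * δ' :=
      ((A ^ a k).le_opNorm _).trans
        (mul_le_mul (hLa k hk).1 hnx.le (norm_nonneg _) hL0)
    have h3 : (A ^ n) (z k + (((A ^ a k) x - z k) + (A ^ b k) w)) - y k =
        (A ^ a k) ((A ^ n) x) + ((A ^ b k) ((A ^ n) w) - y k) := by
      have : z k + (((A ^ a k) x - z k) + (A ^ b k) w) = (A ^ a k) x + (A ^ b k) w := by abel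
      rw [this, map_add, pow_comm_apply A n (a k), pow_comm_apply A n (b k)]
      abel
    rw [h3]
    calc _ ≤ ‖(A ^ a k) ((A ^ n) x)‖ + ‖(A ^ b k) ((A ^ n) w) - y k‖ := norm_add_le _ _
      _ < δ := by linarith

/-! ### the sequence space `c₀` -/

/-- the element of `c₀` given by a null sequence -/
noncomputable def mkc0 (x : ℕ → ℂ) (hx : Tendsto x atTop (𝓝 0)) : C₀(ℕ, ℂ) where
  toFun := x
  continuous_toFun := continuous_of_discreteTopology
  zero_at_infty' := by
    rw [Filter.cocompact_eq_cofinite, Nat.cofinite_eq_atTop]; exact hx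

theorem c0_tendsto (x : C₀(ℕ, ℂ)) : Tendsto (fun k => x k) atTop (𝓝 0) := by
  have := x.zero_at_infty'
  rw [Filter.cocompact_eq_cofinite, Nat.cofinite_eq_atTop] at this
  exact this

theorem c0_le (x : C₀(ℕ, ℂ)) (k : ℕ) : ‖x k‖ ≤ ‖x‖ := by
  rw [← ZeroAtInftyContinuousMap.norm_toBCF_eq_norm]
  exact BoundedContinuousFunction.norm_coe_le_norm x.toBCF k

theorem c0_norm_le {x : C₀(ℕ, ℂ)} {C : ℝ} (hC : 0 ≤ C) (h : ∀ k, ‖x k‖ ≤ C) : ‖x‖ ≤ C := by
  rw [← ZeroAtInftyContinuousMap.norm_toBCF_eq_norm]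
  exact (BoundedContinuousFunction.norm_le hC).mpr h

/-- the unit vectors -/
noncomputable def e (k : ℕ) : C₀(ℕ, ℂ) := mkc0 (Pi.single k 1) (by
  apply tendsto_const_nhds.congr'
  filter_upwards [eventually_gt_atTop k] with n hn
  rw [Pi.single_eq_of_ne (by omega)])

theorem e_apply (k j : ℕ) : e k j = if j = k then 1 else 0 := by
  show (Pi.single k (1 : ℂ) : ℕ → ℂ) j = _
  rw [Pi.single_apply]

/-- the tail `x - P_q x` -/
noncomputable def tl (q : ℕ) (x : C₀(ℕ, ℂ)) : C₀(ℕ, ℂ) :=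
  x - ∑ k ∈ Finset.range q, x k • e k

theorem sum_coe (s : Finset ℕ) (f : ℕ → C₀(ℕ, ℂ)) (j : ℕ) :
    (∑ k ∈ s, f k) j = ∑ k ∈ s, f k j := by
  classical
  induction s using Finset.induction_on with
  | empty => simp
  | insert a s ha ih => rw [Finset.sum_insert ha, Finset.sum_insert ha,
      ZeroAtInftyContinuousMap.add_apply, ih]

theorem tl_apply (q : ℕ) (x : C₀(ℕ, ℂ)) (j : ℕ) : tl q x j = if j < q then 0 else x j := by
  unfold tl
  rw [ZeroAtInftyContinuousMap.sub_apply, sum_coe]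
  simp only [ZeroAtInftyContinuousMap.smul_apply, e_apply, smul_eq_mul, mul_ite, mul_one, mul_zero]
  rw [Finset.sum_ite_eq]
  by_cases h : j < q
  · simp [h]
  · simp [h]

theorem tl_tendsto (x : C₀(ℕ, ℂ)) : Tendsto (fun q => ‖tl q x‖) atTop (𝓝 0) := by
  rw [Metric.tendsto_atTop]
  intro ε hε
  obtain ⟨N, hN⟩ := Metric.tendsto_atTop.mp (c0_tendsto x) (ε / 2) (by positivity)
  refine ⟨N, fun q hq => ?_⟩
  rw [Real.dist_eq, sub_zero, abs_norm]
  refine lt_of_le_of_lt (c0_norm_le (C := ε / 2) (by positivity) fun j => ?_) (by linarith)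
  rw [tl_apply]
  split_ifs with h
  · simp; positivity
  · have := hN j (by omega)
    rw [dist_zero_right] at this
    exact this.le

/-! ### perturbing a copy of `c₀` -/

theorem one_toReal : (1 : ENNReal).toReal = 1 := by simp

theorem l1_summable (p : lp (fun _ : ℕ => X) 1) : Summable fun k => ‖p k‖ := by
  have := (lp.memℓp p).summable (by norm_num)
  simpa using this

theorem l1_norm (p : lp (fun _ : ℕ => X) 1) : ‖p‖ = ∑' k, ‖p k‖ := by
  have := lp.norm_rpow_eq_tsum (p := 1) (by norm_num) p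
  simpa using this

variable [CompleteSpace X]

theorem S_summable (p : lp (fun _ : ℕ => X) 1) (x : C₀(ℕ, ℂ)) :
    Summable fun k => x k • p k := by
  apply Summable.of_norm_bounded ((l1_summable p).mul_left ‖x‖)
  intro k
  rw [norm_smul]
  exact mul_le_mul_of_nonneg_right (c0_le x k) (norm_nonneg _)

/-- `x ↦ ∑ x_k p_k` -/
noncomputable def Slin (p : lp (fun _ : ℕ => X) 1) : C₀(ℕ, ℂ) →ₗ[ℂ] X where
  toFun x := ∑' k, x k • p k
  map_add' x y := by
    rw [← (S_summable p x).tsum_add (S_summable p y)]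
    congr 1
    ext k
    rw [ZeroAtInftyContinuousMap.add_apply, add_smul]
  map_smul' c x := by
    rw [RingHom.id_apply, ← (S_summable p x).tsum_const_smul]
    congr 1
    ext k
    rw [ZeroAtInftyContinuousMap.smul_apply, smul_assoc]

theorem Slin_norm (p : lp (fun _ : ℕ => X) 1) (x : C₀(ℕ, ℂ)) : ‖Slin p x‖ ≤ ‖p‖ * ‖x‖ := by
  have h1 : ‖∑' k, x k • p k‖ ≤ ∑' k, ‖x‖ * ‖p k‖ := by
    apply tsum_of_norm_bounded ((l1_summable p).mul_left ‖x‖).hasSum
    intro k
    rw [norm_smul]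
    exact mul_le_mul_of_nonneg_right (c0_le x k) (norm_nonneg _)
  rw [tsum_mul_left, ← l1_norm, mul_comm] at h1
  exact h1

/-- `x ↦ ∑ x_k p_k` -/
noncomputable def S (p : lp (fun _ : ℕ => X) 1) : C₀(ℕ, ℂ) →L[ℂ] X :=
  (Slin p).mkContinuous ‖p‖ (Slin_norm p)

theorem S_apply (p : lp (fun _ : ℕ => X) 1) (x : C₀(ℕ, ℂ)) : S p x = ∑' k, x k • p k := rfl

theorem S_e (p : lp (fun _ : ℕ => X) 1) (k : ℕ) : S p (e k) = p k := by
  rw [S_apply, tsum_eq_single k]
  · rw [e_apply, if_pos rfl, one_smul]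
  · intro j hj
    rw [e_apply, if_neg hj, zero_smul]

theorem S_tl (p : lp (fun _ : ℕ => X) 1) (q : ℕ) (x : C₀(ℕ, ℂ)) :
    ‖S p (tl q x)‖ ≤ ‖tl q x‖ * (‖p‖ - ∑ k ∈ Finset.range q, ‖p k‖) := by
  have hs := l1_summable p
  have h0 : Summable fun k => if k < q then (0 : ℝ) else ‖p k‖ := by
    refine Summable.of_nonneg_of_le (fun k => ?_) (fun k => ?_) hs
    · split_ifs <;> positivity
    · split_ifs
      · positivity
      · exact le_rfl
  have h2 : ∑' k, (if k < q then (0 : ℝ) else ‖p k‖) = ‖p‖ - ∑ k ∈ Finset.range q, ‖p k‖ := by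
    rw [l1_norm, ← hs.sum_add_tsum_nat_add q, ← h0.sum_add_tsum_nat_add q]
    have : ∑ k ∈ Finset.range q, (if k < q then (0 : ℝ) else ‖p k‖) = 0 := by
      apply Finset.sum_eq_zero
      intro k hk
      rw [if_pos (Finset.mem_range.mp hk)]
    rw [this, zero_add, add_sub_cancel_left]
    congr 1
    ext k
    rw [if_neg (by omega)]
  rw [← h2, ← tsum_mul_left]
  rw [S_apply]
  apply tsum_of_norm_bounded (h0.mul_left _).hasSum
  intro k
  rw [norm_smul]
  by_cases h : k < q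
  · rw [tl_apply, if_pos h, if_pos h]; simp
  · rw [if_neg h]
    exact mul_le_mul_of_nonneg_right (c0_le _ k) (norm_nonneg _)

/-- the sets of the Baire category argument -/
def O (A : X →L[ℂ] X) (ι : C₀(ℕ, ℂ) →L[ℂ] X) (x0 : X) (i j m : ℕ) :
    Set (lp (fun _ : ℕ => X) 1) :=
  {p | ∃ q n : ℕ, m ≤ q ∧ (∀ k ∈ Finset.range q,
    ‖(A ^ n) (ι (e k) + p k) - (if k = i then (A ^ j) x0 else 0)‖ < 1 / ((q : ℝ) + 1) ^ 2) ∧
    ‖A ^ n‖ * (‖p‖ - ∑ k ∈ Finset.range q, ‖p k‖) < 1}

theorem coord_cont (k : ℕ) : Continuous fun p : lp (fun _ : ℕ => X) 1 => p k :=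
  (lp.lipschitzWith_one_eval 1 k).continuous

theorem O_open (A : X →L[ℂ] X) (ι : C₀(ℕ, ℂ) →L[ℂ] X) (x0 : X) (i j m : ℕ) :
    IsOpen (O A ι x0 i j m) := by
  have : O A ι x0 i j m = ⋃ q : ℕ, ⋃ n : ℕ, {p : lp (fun _ : ℕ => X) 1 | m ≤ q} ∩
      ((⋂ k ∈ Finset.range q, {p : lp (fun _ : ℕ => X) 1 |
        ‖(A ^ n) (ι (e k) + p k) - (if k = i then (A ^ j) x0 else 0)‖ <
          1 / ((q : ℝ) + 1) ^ 2}) ∩
      {p : lp (fun _ : ℕ => X) 1 | ‖A ^ n‖ * (‖p‖ - ∑ k ∈ Finset.range q, ‖p k‖) < 1}) := by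
    ext p
    simp [O]
  rw [this]
  refine isOpen_iUnion fun q => isOpen_iUnion fun n => ?_
  refine isOpen_const.inter ((isOpen_biInter_finset fun k _ => ?_).inter ?_)
  · refine isOpen_lt (Continuous.norm ?_) continuous_const
    exact ((A ^ n).continuous.comp (continuous_const.add (coord_cont k))).sub continuous_const
  · refine isOpen_lt ?_ continuous_const
    refine continuous_const.mul (continuous_norm.sub ?_)
    exact continuous_finsetSum _ fun k _ => (coord_cont k).norm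

theorem sum_single_apply (s : Finset ℕ) (c : ℕ → X) (k : ℕ) :
    (∑ l ∈ s, lp.single (E := fun _ : ℕ => X) 1 l (c l)) k = if k ∈ s then c k else 0 := by
  rw [lp.coeFn_sum, Finset.sum_apply]
  simp only [lp.single_apply]
  by_cases hk : k ∈ s
  · rw [if_pos hk, Finset.sum_eq_single k]
    · simp
    · intro b _ hb
      simp [Pi.single_apply, hb.symm]
    · intro h; exact absurd hk h
  · rw [if_neg hk]
    apply Finset.sum_eq_zero
    intro b hb
    have : k ≠ b := by rintro rfl; exact hk hb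
    simp [Pi.single_apply, this]

theorem sum_single_norm (s : Finset ℕ) (c : ℕ → X) :
    ‖∑ l ∈ s, lp.single (E := fun _ : ℕ => X) 1 l (c l)‖ ≤ ∑ l ∈ s, ‖c l‖ := by
  refine (norm_sum_le _ _).trans (le_of_eq ?_)
  refine Finset.sum_congr rfl fun l _ => ?_
  rw [lp.norm_single (by norm_num)]

theorem O_dense [Nontrivial X] {A : X →L[ℂ] X} {x0 : X}
    (hx0 : Dense (Set.range fun n : ℕ => (A ^ n) x0)) {B : Set X} (hB : Dense B)
    (hBb : ∀ x ∈ B, ∃ C : ℝ, ∀ n : ℕ, ‖(A ^ n) x‖ ≤ C)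
    (ι : C₀(ℕ, ℂ) →L[ℂ] X) (i j m : ℕ) : Dense (O A ι x0 i j m) := by
  rw [Metric.dense_iff]
  intro p η hη
  have hs := (lp.hasSum_single (p := 1) (by norm_num) p).tendsto_sum_nat
  obtain ⟨Q, hQ⟩ := Metric.tendsto_atTop.mp hs (η / 2) (by positivity)
  set q := max Q m with hq
  have h1 := hQ q (le_max_left _ _)
  set δ : ℝ := min (η / (2 * ((q : ℝ) + 1))) (1 / ((q : ℝ) + 1) ^ 2) with hδ
  have hδpos : 0 < δ := by
    rw [hδ, lt_min_iff]; constructor <;> positivity
  obtain ⟨n, r, hr⟩ := stepC hx0 hB hBb q (fun k => ι (e k) + p k)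
    (fun k => if k = i then (A ^ j) x0 else 0) hδpos
  set p' : lp (fun _ : ℕ => X) 1 :=
    ∑ l ∈ Finset.range q, lp.single (E := fun _ : ℕ => X) 1 l (p l + r l) with hp'
  have hp'k : ∀ k ∈ Finset.range q, p' k = p k + r k := by
    intro k hk
    rw [hp', sum_single_apply, if_pos hk]
  refine ⟨p', ?_, q, n, le_max_right _ _, fun k hk => ?_, ?_⟩
  · have h2 : p' = (∑ l ∈ Finset.range q, lp.single (E := fun _ : ℕ => X) 1 l (p l)) +
        ∑ l ∈ Finset.range q, lp.single (E := fun _ : ℕ => X) 1 l (r l) := by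
      rw [hp', ← Finset.sum_add_distrib]
      refine Finset.sum_congr rfl fun l _ => ?_
      rw [lp.single_add]
    have h3 : ‖∑ l ∈ Finset.range q, lp.single (E := fun _ : ℕ => X) 1 l (r l)‖ ≤ η / 2 := by
      refine (sum_single_norm _ _).trans ?_
      calc ∑ l ∈ Finset.range q, ‖r l‖ ≤ ∑ l ∈ Finset.range q, η / (2 * ((q : ℝ) + 1)) := by
            refine Finset.sum_le_sum fun l hl => ?_
            exact ((hr l (Finset.mem_range.mp hl)).1.le).trans (min_le_left _ _)
        _ = q * (η / (2 * ((q : ℝ) + 1))) := by simp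
        _ ≤ η / 2 := by
            rw [mul_div_assoc', div_le_div_iff₀ (by positivity) (by positivity)]
            nlinarith
    rw [Metric.mem_ball, dist_eq_norm, h2, add_sub_right_comm]
    rw [dist_eq_norm] at h1
    calc _ ≤ _ := norm_add_le _ _
      _ < η := by linarith
  · rw [hp'k k hk, ← add_assoc]
    exact lt_of_lt_of_le (hr k (Finset.mem_range.mp hk)).2 (min_le_right _ _)
  · have h4 : ‖p'‖ ≤ ∑ k ∈ Finset.range q, ‖p' k‖ := by
      rw [Finset.sum_congr rfl fun k hk => by rw [hp'k k hk]]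
      exact sum_single_norm _ _
    have h5 : ‖A ^ n‖ * (‖p'‖ - ∑ k ∈ Finset.range q, ‖p' k‖) ≤ 0 :=
      mul_nonpos_of_nonneg_of_nonpos (norm_nonneg _) (by linarith)
    linarith

theorem O_estimate {A : X →L[ℂ] X} {x0 : X} {ι : C₀(ℕ, ℂ) →L[ℂ] X} {K : ℝ}
    (hι2 : ∀ (n : ℕ) x, ‖(A ^ n) (ι x)‖ ≤ K * ‖x‖) {i j q n : ℕ} (hiq : i < q)
    {p : lp (fun _ : ℕ => X) 1}
    (h1 : ∀ k ∈ Finset.range q,
      ‖(A ^ n) (ι (e k) + p k) - (if k = i then (A ^ j) x0 else 0)‖ < 1 / ((q : ℝ) + 1) ^ 2)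
    (h2 : ‖A ^ n‖ * (‖p‖ - ∑ k ∈ Finset.range q, ‖p k‖) < 1) (x : C₀(ℕ, ℂ)) (hx : x i = 1) :
    ‖(A ^ n) ((ι + S p) x) - (A ^ j) x0‖ ≤ ‖x‖ * (1 / ((q : ℝ) + 1)) + (K + 1) * ‖tl q x‖ := by
  have hdec : x = (∑ k ∈ Finset.range q, x k • e k) + tl q x := by
    unfold tl; abel
  have hJ : (A ^ n) ((ι + S p) x) = (∑ k ∈ Finset.range q, x k • (A ^ n) (ι (e k) + p k)) +
      ((A ^ n) (ι (tl q x)) + (A ^ n) (S p (tl q x))) := by
    conv_lhs => rw [hdec]
    rw [map_add, map_add, map_sum, map_sum]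
    congr 1
    · refine Finset.sum_congr rfl fun k _ => ?_
      rw [map_smul, map_smul, _root_.add_apply, S_e]
    · rw [_root_.add_apply, map_add]
  have hy : (A ^ j) x0 = ∑ k ∈ Finset.range q, x k • (if k = i then (A ^ j) x0 else 0) := by
    rw [Finset.sum_eq_single i]
    · simp [hx]
    · intro b _ hb; simp [hb]
    · intro h; exact absurd (Finset.mem_range.mpr hiq) h
  have hsum : ‖(∑ k ∈ Finset.range q, x k • (A ^ n) (ι (e k) + p k)) - (A ^ j) x0‖ ≤
      ‖x‖ * (1 / ((q : ℝ) + 1)) := by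
    conv_lhs => rw [hy, ← Finset.sum_sub_distrib]
    refine (norm_sum_le _ _).trans ?_
    calc ∑ k ∈ Finset.range q, ‖x k • (A ^ n) (ι (e k) + p k) -
          x k • (if k = i then (A ^ j) x0 else 0)‖
        ≤ ∑ k ∈ Finset.range q, ‖x‖ * (1 / ((q : ℝ) + 1) ^ 2) := by
          refine Finset.sum_le_sum fun k hk => ?_
          rw [← smul_sub, norm_smul]
          exact mul_le_mul (c0_le x k) (h1 k hk).le (norm_nonneg _) (norm_nonneg _)
      _ = ‖x‖ * (q * (1 / ((q : ℝ) + 1) ^ 2)) := by simp; ring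
      _ ≤ ‖x‖ * (1 / ((q : ℝ) + 1)) := by
          refine mul_le_mul_of_nonneg_left ?_ (norm_nonneg _)
          rw [mul_one_div, div_le_div_iff₀ (by positivity) (by positivity)]
          nlinarith [Nat.cast_nonneg (α := ℝ) q]
  have htail : ‖(A ^ n) (S p (tl q x))‖ ≤ ‖tl q x‖ := by
    calc ‖(A ^ n) (S p (tl q x))‖ ≤ ‖A ^ n‖ * ‖S p (tl q x)‖ := (A ^ n).le_opNorm _
      _ ≤ ‖A ^ n‖ * (‖tl q x‖ * (‖p‖ - ∑ k ∈ Finset.range q, ‖p k‖)) :=
          mul_le_mul_of_nonneg_left (S_tl p q x) (norm_nonneg _)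
      _ = (‖A ^ n‖ * (‖p‖ - ∑ k ∈ Finset.range q, ‖p k‖)) * ‖tl q x‖ := by ring
      _ ≤ 1 * ‖tl q x‖ := mul_le_mul_of_nonneg_right h2.le (norm_nonneg _)
      _ = _ := one_mul _
  have h3 := hι2 n (tl q x)
  rw [hJ, add_sub_right_comm]
  refine (norm_add_le _ _).trans ?_
  have h4 := norm_add_le ((A ^ n) (ι (tl q x))) ((A ^ n) (S p (tl q x)))
  linarith

theorem infinite_dim_c0 : ¬ FiniteDimensional ℂ C₀(ℕ, ℂ) := by
  intro hfin
  have hli : LinearIndependent ℂ e := by
    rw [linearIndependent_iff']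
    intro s g hg k hk
    have := congrArg (fun x : C₀(ℕ, ℂ) => x k) hg
    simp only [sum_coe, ZeroAtInftyContinuousMap.smul_apply, e_apply, smul_eq_mul, mul_ite,
      mul_one, mul_zero, ZeroAtInftyContinuousMap.zero_apply] at this
    rw [Finset.sum_ite_eq] at this
    simpa [hk] using this
  exact absurd hli.lt_aleph0_of_finiteDimensional (by simp)

theorem subspace_of_c0 {A : X →L[ℂ] X} {x0 : X}
    (hx0 : Dense (Set.range fun n : ℕ => (A ^ n) x0)) {B : Set X} (hB : Dense B)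
    (hBb : ∀ x ∈ B, ∃ C : ℝ, ∀ n : ℕ, ‖(A ^ n) x‖ ≤ C)
    (ι : C₀(ℕ, ℂ) →L[ℂ] X) (hι1 : ∀ x, ‖x‖ ≤ ‖ι x‖) {K : ℝ}
    (hι2 : ∀ (n : ℕ) x, ‖(A ^ n) (ι x)‖ ≤ K * ‖x‖) :
    ∃ M : Submodule ℂ X, IsClosed (M : Set X) ∧ ¬ FiniteDimensional ℂ M ∧
      ∀ f ∈ M, f ≠ 0 → Dense (Set.range fun n : ℕ => (A ^ n) f) := by
  have hnt : Nontrivial X := by
    refine ⟨ι (e 0), 0, ?_⟩
    intro h
    have h1 := hι1 (e 0)
    rw [h, norm_zero] at h1
    have h2 := c0_le (e 0) 0
    rw [e_apply, if_pos rfl, norm_one] at h2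
    linarith
  have hd : Dense (⋂ t : ℕ × ℕ × ℕ, O A ι x0 t.1 t.2.1 t.2.2) :=
    dense_iInter_of_isOpen (fun t => O_open A ι x0 _ _ _)
      (fun t => O_dense hx0 hB hBb ι _ _ _)
  obtain ⟨p, hpb, hpO⟩ := hd.inter_open_nonempty (Metric.ball 0 (1 / 2)) Metric.isOpen_ball
    ⟨0, Metric.mem_ball_self (by norm_num)⟩
  rw [Metric.mem_ball, dist_zero_right] at hpb
  set J : C₀(ℕ, ℂ) →L[ℂ] X := ι + S p with hJ
  have hJb : ∀ x, ‖x‖ ≤ 2 * ‖J x‖ := by
    intro x
    have h1 := hι1 x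
    have h2 := Slin_norm p x
    have h3 : ι x = J x - Slin p x := by
      rw [hJ, _root_.add_apply]
      show _ = ι x + Slin p x - Slin p x
      abel
    have h4 : ‖ι x‖ ≤ ‖J x‖ + ‖Slin p x‖ := by
      rw [h3]; exact norm_sub_le _ _
    have h5 : ‖p‖ * ‖x‖ ≤ 1 / 2 * ‖x‖ := mul_le_mul_of_nonneg_right hpb.le (norm_nonneg _)
    linarith
  have hanti : AntilipschitzWith 2 J := by
    apply AddMonoidHomClass.antilipschitz_of_bound
    intro x
    exact_mod_cast hJb x
  refine ⟨LinearMap.range (J : C₀(ℕ, ℂ) →ₗ[ℂ] X), ?_, ?_, ?_⟩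
  · have := hanti.isClosed_range J.uniformContinuous
    exact this
  · intro hfin
    have e1 : C₀(ℕ, ℂ) ≃ₗ[ℂ] LinearMap.range (J : C₀(ℕ, ℂ) →ₗ[ℂ] X) :=
      LinearEquiv.ofInjective (J : C₀(ℕ, ℂ) →ₗ[ℂ] X) hanti.injective
    exact infinite_dim_c0 (LinearEquiv.finiteDimensional e1.symm)
  · rintro f ⟨x, rfl⟩ hx
    have hx' : ∃ i, x i ≠ 0 := by
      by_contra hcon
      push Not at hcon
      apply hx
      have : x = 0 := by
        ext i; exact hcon i
      rw [this]; simp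
    obtain ⟨i, hi⟩ := hx'
    -- the orbit of the normalised vector is dense
    have key : ∀ z : C₀(ℕ, ℂ), z i = 1 → Dense (Set.range fun n : ℕ => (A ^ n) (J z)) := by
      intro z hz
      rw [Metric.dense_iff]
      intro y ε hε
      obtain ⟨_, hb, ⟨j, rfl⟩⟩ := hx0.inter_open_nonempty (Metric.ball y (ε / 2))
        Metric.isOpen_ball ⟨y, Metric.mem_ball_self (by positivity)⟩
      have hlim : Tendsto (fun q : ℕ => ‖z‖ * (1 / ((q : ℝ) + 1)) + (K + 1) * ‖tl q z‖) atTop
          (𝓝 0) := by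
        have h1 : Tendsto (fun q : ℕ => ‖z‖ * (1 / ((q : ℝ) + 1))) atTop (𝓝 (‖z‖ * 0)) :=
          tendsto_one_div_add_atTop_nhds_zero_nat.const_mul _
        have h2 : Tendsto (fun q : ℕ => (K + 1) * ‖tl q z‖) atTop (𝓝 ((K + 1) * 0)) :=
          (tl_tendsto z).const_mul _
        simpa using h1.add h2
      obtain ⟨m, hm⟩ := Metric.tendsto_atTop.mp hlim (ε / 2) (by positivity)
      obtain ⟨q, n, hmq, h1, h2⟩ := Set.mem_iInter.mp hpO (i, j, max m (i + 1))
      have hest := O_estimate hι2 (lt_of_lt_of_le (Nat.lt_succ_self i)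
        ((le_max_right _ _).trans hmq)) h1 h2 z hz
      have hlt := hm q ((le_max_left _ _).trans hmq)
      rw [Real.dist_eq, sub_zero] at hlt
      refine ⟨(A ^ n) (J z), ?_, n, rfl⟩
      rw [Metric.mem_ball] at hb ⊢
      calc dist ((A ^ n) (J z)) y ≤ dist ((A ^ n) (J z)) ((A ^ j) x0) + dist ((A ^ j) x0) y :=
            dist_triangle _ _ _
        _ < ε / 2 + ε / 2 := by
            refine add_lt_add ?_ hb
            rw [dist_eq_norm]
            exact lt_of_le_of_lt (hest.trans (le_abs_self _)) hlt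
        _ = ε := by ring
    have hdz := key ((x i)⁻¹ • x) (by
      rw [ZeroAtInftyContinuousMap.smul_apply, smul_eq_mul, inv_mul_cancel₀ hi])
    -- scale back
    have himg : (Set.range fun n : ℕ => (A ^ n) ((J : C₀(ℕ, ℂ) →ₗ[ℂ] X) x)) =
        (fun y : X => x i • y) '' (Set.range fun n : ℕ => (A ^ n) (J ((x i)⁻¹ • x))) := by
      rw [← Set.range_comp]
      congr 1
      ext n
      show (A ^ n) (J x) = x i • (A ^ n) (J ((x i)⁻¹ • x))
      rw [map_smul, map_smul, smul_inv_smul₀ hi]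
    show Dense (Set.range fun n : ℕ => (A ^ n) ((J : C₀(ℕ, ℂ) →ₗ[ℂ] X) x))
    rw [himg]
    have hsurj : Function.Surjective (fun y : X => x i • y) := fun y =>
      ⟨(x i)⁻¹ • y, smul_inv_smul₀ hi y⟩
    exact hsurj.denseRange.dense_image (continuous_const_smul _) hdz

end abstract_part

/-! ### Rooted trees and their little Lipschitz spaces -/

/-- a rooted tree: a locally finite infinite tree with a distinguished vertex, the root, such that
only the root may have degree one -/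
structure RootedTree (V : Type) where
  graph : SimpleGraph V
  isTree : graph.IsTree
  locallyFinite : ∀ v, (graph.neighborSet v).Finite
  root : V
  degree_ne_one : ∀ v, v ≠ root → (graph.neighborSet v).ncard ≠ 1
  infinite : Infinite V

namespace RootedTree

variable {V : Type} (T : RootedTree V)

/-- `|v|`: the number of edges from the root to `v` -/
noncomputable def lev (v : V) : ℕ := T.graph.dist T.root v

/-- `u` is the parent `v⁻` of `v`: the neighbour of `v` on the path from the root to `v` -/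
def IsParent (u v : V) : Prop := T.graph.Adj u v ∧ T.lev v = T.lev u + 1

theorem exists_parent {v : V} {n : ℕ} (hv : T.lev v = n + 1) :
    ∃ u, T.IsParent u v ∧ T.lev u = n := by
  obtain ⟨w, hw⟩ := T.isTree.connected.exists_walk_length_eq_dist v T.root
  cases w with
  | nil =>
    rw [SimpleGraph.dist_comm] at hw
    unfold lev at hv
    rw [hv] at hw
    simp at hw
  | @cons _ u _ h p =>
    rw [SimpleGraph.Walk.length_cons, SimpleGraph.dist_comm] at hw
    unfold lev at hv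
    have h1 : p.length = n := by omega
    have h2 : T.graph.dist T.root u ≤ n := by
      rw [SimpleGraph.dist_comm, ← h1]
      exact SimpleGraph.dist_le p
    have h3 : T.graph.dist T.root v ≤ T.graph.dist T.root u + 1 := by
      have := T.isTree.connected.dist_triangle (u := T.root) (v := u) (w := v)
      rw [SimpleGraph.dist_eq_one_iff_adj.mpr h.symm] at this
      exact this
    have h4 : T.lev u = n := by unfold lev; omega
    exact ⟨u, ⟨h.symm, by rw [h4]; exact hv⟩, h4⟩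

theorem lev_zero {v : V} (hv : T.lev v = 0) : v = T.root :=
  (T.isTree.connected.dist_eq_zero_iff.mp hv).symm

theorem lev_root : T.lev T.root = 0 := by unfold lev; simp

theorem ball_finite (N : ℕ) : {v : V | T.lev v ≤ N}.Finite := by
  induction N with
  | zero =>
    apply (Set.finite_singleton T.root).subset
    intro v hv
    exact T.lev_zero (Nat.le_zero.mp hv)
  | succ N ih =>
    apply (ih.union (ih.biUnion fun u _ => T.locallyFinite u)).subset
    intro v hv
    by_cases h : T.lev v ≤ N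
    · exact Or.inl h
    · right
      have hv' : T.lev v ≤ N + 1 := hv
      obtain ⟨u, hu, hun⟩ := T.exists_parent (v := v) (n := N) (by omega)
      exact Set.mem_biUnion (show T.lev u ≤ N by omega) hu.1

theorem exists_far (N : ℕ) : ∃ v : V, N < T.lev v := by
  haveI := T.infinite
  by_contra hcon
  push Not at hcon
  apply Set.infinite_univ (α := V)
  exact (T.ball_finite N).subset fun v _ => hcon v

end RootedTree

variable {V : Type}

/-- the functions `f` on the tree with `|f(v) - f(v⁻)| → 0` as `|v| → ∞` -/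
def vanishing (T : RootedTree V) : Submodule ℂ (V → ℂ) where
  carrier := {f | ∀ ε : ℝ, 0 < ε → ∃ N : ℕ, ∀ u v : V, T.IsParent u v → N ≤ T.lev v →
    ‖f v - f u‖ < ε}
  zero_mem' := fun ε hε => ⟨0, fun u v _ _ => by simpa using hε⟩
  add_mem' := by
    intro f g hf hg ε hε
    obtain ⟨N, hN⟩ := hf (ε / 2) (by positivity)
    obtain ⟨M, hM⟩ := hg (ε / 2) (by positivity)
    refine ⟨max N M, fun u v huv hv => ?_⟩
    have h1 := hN u v huv ((le_max_left _ _).trans hv)
    have h2 := hM u v huv ((le_max_right _ _).trans hv)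
    have h3 : (f + g) v - (f + g) u = (f v - f u) + (g v - g u) := by
      simp only [Pi.add_apply]; ring
    rw [h3]
    exact lt_of_le_of_lt (norm_add_le _ _) (by linarith)
  smul_mem' := by
    intro c f hf ε hε
    obtain ⟨N, hN⟩ := hf (ε / (‖c‖ + 1)) (by positivity)
    refine ⟨N, fun u v huv hv => ?_⟩
    have h1 := hN u v huv hv
    have h3 : (c • f) v - (c • f) u = c * (f v - f u) := by
      simp only [Pi.smul_apply, smul_eq_mul]; ring
    rw [h3, norm_mul]
    rw [lt_div_iff₀ (by positivity)] at h1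
    nlinarith [norm_nonneg c, norm_nonneg (f v - f u)]

/-- the little Lipschitz space `L₀(T)` -/
def LittleLip (T : RootedTree V) : Type := vanishing T

instance (T : RootedTree V) : AddCommGroup (LittleLip T) :=
  inferInstanceAs (AddCommGroup (vanishing T))

instance (T : RootedTree V) : Module ℂ (LittleLip T) :=
  inferInstanceAs (Module ℂ (vanishing T))

instance (T : RootedTree V) : CoeFun (LittleLip T) (fun _ => V → ℂ) := ⟨fun f => f.1⟩

/-- the norm `max {|f(o)|, sup_{v ≠ o} |f(v) - f(v⁻)|}` -/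
noncomputable instance (T : RootedTree V) : Norm (LittleLip T) :=
  ⟨fun f => max ‖f T.root‖ (⨆ e : {e : V × V // T.IsParent e.1 e.2}, ‖f e.1.2 - f e.1.1‖)⟩

section

variable {T : RootedTree V}

theorem norm_def (f : LittleLip T) : ‖f‖ =
    max ‖f T.root‖ (⨆ e : {e : V × V // T.IsParent e.1 e.2}, ‖f e.1.2 - f e.1.1‖) := rfl

theorem add_apply' (f g : LittleLip T) (v : V) : (f + g) v = f v + g v := rfl

theorem smul_apply' (c : ℂ) (f : LittleLip T) (v : V) : (c • f) v = c * f v := rfl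

theorem sub_apply' (f g : LittleLip T) (v : V) : (f - g) v = f v - g v := rfl

theorem zero_apply' (v : V) : (0 : LittleLip T) v = 0 := rfl

theorem ext' {f g : LittleLip T} (h : ∀ v, f v = g v) : f = g :=
  Subtype.ext (funext h)

theorem bdd (f : LittleLip T) : BddAbove (Set.range fun e : {e : V × V // T.IsParent e.1 e.2} =>
    ‖f e.1.2 - f e.1.1‖) := by
  obtain ⟨N, hN⟩ := f.2 1 one_pos
  have hfin : (((fun e : V × V => ‖f e.2 - f e.1‖)) '' ({v | T.lev v ≤ N} ×ˢ {v | T.lev v ≤ N})).Finite :=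
    ((T.ball_finite N).prod (T.ball_finite N)).image _
  obtain ⟨C, hC⟩ := hfin.bddAbove
  refine ⟨max C 1, ?_⟩
  rintro _ ⟨⟨⟨u, v⟩, huv⟩, rfl⟩
  by_cases h : N ≤ T.lev v
  · exact (hN u v huv h).le.trans (le_max_right _ _)
  · have h2 := huv.2
    simp only at h2
    exact (hC ⟨(u, v), ⟨by show T.lev u ≤ N; omega, by show T.lev v ≤ N; omega⟩, rfl⟩).trans
      (le_max_left _ _)

theorem root_le (f : LittleLip T) : ‖f T.root‖ ≤ ‖f‖ := le_max_left _ _

theorem edge_le (f : LittleLip T) {u v : V} (h : T.IsParent u v) : ‖f v - f u‖ ≤ ‖f‖ :=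
  (le_ciSup (bdd f) ⟨(u, v), h⟩).trans (le_max_right _ _)

theorem nonempty_edge (T : RootedTree V) : Nonempty {e : V × V // T.IsParent e.1 e.2} := by
  obtain ⟨v, hv⟩ := T.exists_far 0
  obtain ⟨u, hu, _⟩ := T.exists_parent (v := v) (n := T.lev v - 1) (by omega)
  exact ⟨⟨(u, v), hu⟩⟩

theorem norm_le' {f : LittleLip T} {C : ℝ} (h0 : ‖f T.root‖ ≤ C)
    (h : ∀ u v, T.IsParent u v → ‖f v - f u‖ ≤ C) : ‖f‖ ≤ C := by
  haveI := nonempty_edge T
  exact max_le h0 (ciSup_le fun e => h _ _ e.2)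

theorem apply_le (f : LittleLip T) (v : V) : ‖f v‖ ≤ ((T.lev v : ℝ) + 1) * ‖f‖ := by
  obtain ⟨n, hn⟩ : ∃ n, T.lev v = n := ⟨_, rfl⟩
  induction n generalizing v with
  | zero =>
    have := T.lev_zero hn
    subst this
    have h1 := root_le f
    rw [hn]; simpa using h1
  | succ n ih =>
    obtain ⟨u, hu, hun⟩ := T.exists_parent hn
    have h1 := ih u hun
    have h2 := edge_le f hu
    have h3 : ‖f v‖ ≤ ‖f v - f u‖ + ‖f u‖ := by
      have := norm_add_le (f v - f u) (f u)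
      simpa using this
    rw [hn]
    rw [hun] at h1
    push_cast
    linarith

theorem core (T : RootedTree V) : NormedSpace.Core ℂ (LittleLip T) where
  norm_nonneg f := (norm_nonneg _).trans (root_le f)
  norm_smul c f := by
    have key : ∀ (c : ℂ) (f : LittleLip T), ‖c • f‖ ≤ ‖c‖ * ‖f‖ := by
      intro c f
      apply norm_le'
      · rw [smul_apply', norm_mul]
        exact mul_le_mul_of_nonneg_left (root_le f) (norm_nonneg _)
      · intro u v huv
        rw [smul_apply', smul_apply', ← mul_sub, norm_mul]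
        exact mul_le_mul_of_nonneg_left (edge_le f huv) (norm_nonneg _)
    apply le_antisymm (key c f)
    by_cases hc : c = 0
    · subst hc
      rw [norm_zero, zero_mul]
      exact (norm_nonneg _).trans (root_le _)
    · have h1 := key c⁻¹ (c • f)
      rw [inv_smul_smul₀ hc, norm_inv] at h1
      rw [← le_inv_mul_iff₀ (norm_pos_iff.mpr hc)]
      exact h1
  norm_triangle f g := by
    apply norm_le'
    · rw [add_apply']
      exact (norm_add_le _ _).trans (add_le_add (root_le f) (root_le g))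
    · intro u v huv
      rw [add_apply', add_apply']
      have h3 : f v + g v - (f u + g u) = (f v - f u) + (g v - g u) := by ring
      rw [h3]
      exact (norm_add_le _ _).trans (add_le_add (edge_le f huv) (edge_le g huv))
  norm_eq_zero_iff f := by
    constructor
    · intro h
      apply ext'
      intro v
      have h1 := apply_le f v
      rw [h, mul_zero] at h1
      rw [zero_apply']
      exact norm_le_zero_iff.mp h1
    · rintro rfl
      apply le_antisymm
      · apply norm_le'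
        · rw [zero_apply', norm_zero]
        · intro u v _
          rw [zero_apply', zero_apply', sub_zero, norm_zero]
      · exact (norm_nonneg _).trans (root_le _)

end

noncomputable instance (T : RootedTree V) : NormedAddCommGroup (LittleLip T) :=
  NormedAddCommGroup.ofCore (core T)

noncomputable instance (T : RootedTree V) : NormedSpace ℂ (LittleLip T) :=
  NormedSpace.ofCore (core T)

section

variable {T : RootedTree V}

/-- evaluation at `v` -/
noncomputable def ev (T : RootedTree V) (v : V) : LittleLip T →L[ℂ] ℂ :=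
  LinearMap.mkContinuous
    { toFun := fun f => f v
      map_add' := fun _ _ => rfl
      map_smul' := fun _ _ => rfl } ((T.lev v : ℝ) + 1) (fun f => apply_le f v)

theorem ev_apply (f : LittleLip T) (v : V) : ev T v f = f v := rfl

instance (T : RootedTree V) : CompleteSpace (LittleLip T) := by
  apply Metric.complete_of_cauchySeq_tendsto
  intro s hs
  have hpt : ∀ v, ∃ l : ℂ, Tendsto (fun n => s n v) atTop (𝓝 l) := by
    intro v
    have h1 : CauchySeq (fun n => ev T v (s n)) :=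
      (ev T v).uniformContinuous.comp_cauchySeq hs
    exact cauchySeq_tendsto_of_complete h1
  choose g hg using hpt
  have hedge : ∀ ε : ℝ, 0 < ε → ∃ N : ℕ, ∀ n ≥ N, ‖g T.root - s n T.root‖ ≤ ε ∧
      ∀ u v, T.IsParent u v → ‖(g v - g u) - (s n v - s n u)‖ ≤ ε := by
    intro ε hε
    obtain ⟨N, hN⟩ := Metric.cauchySeq_iff.mp hs ε hε
    refine ⟨N, fun n hn => ⟨?_, fun u v huv => ?_⟩⟩
    · have h1 : Tendsto (fun m => ‖s m T.root - s n T.root‖) atTop
          (𝓝 ‖g T.root - s n T.root‖) := ((hg T.root).sub_const _).norm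
      apply le_of_tendsto h1
      filter_upwards [eventually_ge_atTop N] with m hm
      have := hN m hm n hn
      rw [dist_eq_norm] at this
      exact (root_le (s m - s n)).trans this.le
    · have h1 : Tendsto (fun m => ‖(s m v - s m u) - (s n v - s n u)‖) atTop
          (𝓝 ‖(g v - g u) - (s n v - s n u)‖) :=
        (((hg v).sub (hg u)).sub_const _).norm
      apply le_of_tendsto h1
      filter_upwards [eventually_ge_atTop N] with m hm
      have h2 := hN m hm n hn
      rw [dist_eq_norm] at h2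
      have h3 := edge_le (s m - s n) huv
      rw [sub_apply', sub_apply'] at h3
      have h4 : (s m v - s m u) - (s n v - s n u) = s m v - s n v - (s m u - s n u) := by ring
      rw [h4]
      exact h3.trans h2.le
  have hgv : g ∈ vanishing T := by
    intro ε hε
    obtain ⟨N, hN⟩ := hedge (ε / 2) (by positivity)
    obtain ⟨M, hM⟩ := (s N).2 (ε / 2) (by positivity)
    refine ⟨M, fun u v huv hv => ?_⟩
    have h1 := (hN N le_rfl).2 u v huv
    have h2 := hM u v huv hv
    have h3 : g v - g u = ((g v - g u) - (s N v - s N u)) + (s N v - s N u) := by ring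
    rw [h3]
    exact lt_of_le_of_lt (norm_add_le _ _) (by linarith)
  refine ⟨⟨g, hgv⟩, ?_⟩
  rw [Metric.tendsto_atTop]
  intro ε hε
  obtain ⟨N, hN⟩ := hedge (ε / 2) (by positivity)
  refine ⟨N, fun n hn => ?_⟩
  rw [dist_comm, dist_eq_norm]
  refine lt_of_le_of_lt (norm_le' (C := ε / 2) (hN n hn).1 fun u v huv => ?_) (by linarith)
  have h1 := (hN n hn).2 u v huv
  have h4 : (g v - g u) - (s n v - s n u) = (g v - s n v) - (g u - s n u) := by ring
  rw [h4] at h1
  exact h1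

end

/-! ### bounded functions are dense -/

section

variable {T : RootedTree V}

theorem norm_le_of_bdd {f : LittleLip T} {C : ℝ} (h : ∀ v, ‖f v‖ ≤ C) : ‖f‖ ≤ 2 * C := by
  have hC : 0 ≤ C := (norm_nonneg _).trans (h T.root)
  apply norm_le'
  · linarith [h T.root]
  · intro u v _
    have := norm_sub_le (f v) (f u)
    linarith [h u, h v]

/-- truncation of real numbers -/
noncomputable def cl (R t : ℝ) : ℝ := max (-R) (min t R)

theorem cl_lip (R s t : ℝ) : |cl R s - cl R t| ≤ |s - t| := by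
  unfold cl
  rw [max_comm (-R), max_comm (-R)]
  refine (abs_max_sub_max_le_abs _ _ _).trans ?_
  have := abs_min_sub_min_le_max s R t R
  simpa using this

theorem cl_abs {R : ℝ} (hR : 0 ≤ R) (t : ℝ) : |cl R t| ≤ R := by
  unfold cl
  rw [abs_le]
  exact ⟨le_max_left _ _, max_le (by linarith) (min_le_right _ _)⟩

theorem cl_eq {R t : ℝ} (h : |t| ≤ R) : cl R t = t := by
  rw [abs_le] at h
  unfold cl
  rw [min_eq_left h.2, max_eq_right h.1]

/-- truncation of complex numbers -/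
noncomputable def th (R : ℝ) (z : ℂ) : ℂ := ⟨cl R z.re, cl R z.im⟩

theorem th_lip (R : ℝ) (z w : ℂ) : ‖th R z - th R w‖ ≤ 2 * ‖z - w‖ := by
  have h1 := Complex.norm_le_abs_re_add_abs_im (th R z - th R w)
  have h2 : |(th R z - th R w).re| ≤ ‖z - w‖ :=
    (cl_lip R z.re w.re).trans (Complex.abs_re_le_norm (z - w))
  have h3 : |(th R z - th R w).im| ≤ ‖z - w‖ :=
    (cl_lip R z.im w.im).trans (Complex.abs_im_le_norm (z - w))
  linarith

theorem th_norm {R : ℝ} (hR : 0 ≤ R) (z : ℂ) : ‖th R z‖ ≤ 2 * R := by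
  have h1 := Complex.norm_le_abs_re_add_abs_im (th R z)
  have h2 : |(th R z).re| ≤ R := cl_abs hR _
  have h3 : |(th R z).im| ≤ R := cl_abs hR _
  linarith

theorem th_eq {R : ℝ} {z : ℂ} (h : ‖z‖ ≤ R) : th R z = z := by
  apply Complex.ext
  · exact cl_eq ((Complex.abs_re_le_norm z).trans h)
  · exact cl_eq ((Complex.abs_im_le_norm z).trans h)

theorem bdd_dense (T : RootedTree V) : Dense {f : LittleLip T | ∃ C : ℝ, ∀ v, ‖f v‖ ≤ C} := by
  rw [Metric.dense_iff]
  intro f ε hε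
  obtain ⟨N, hN⟩ := f.2 (ε / 6) (by positivity)
  set R : ℝ := ((N : ℝ) + 1) * ‖f‖ with hR
  have hR0 : 0 ≤ R := by positivity
  have hfR : ∀ w, T.lev w ≤ N → ‖f w‖ ≤ R := by
    intro w hw
    refine (apply_le f w).trans (mul_le_mul_of_nonneg_right ?_ (norm_nonneg _))
    have : (T.lev w : ℝ) ≤ N := by exact_mod_cast hw
    linarith
  have hmem : (fun v => th R (f v)) ∈ vanishing T := by
    intro η hη
    obtain ⟨M, hM⟩ := f.2 (η / 2) (by positivity)
    refine ⟨M, fun u v huv hv => lt_of_le_of_lt (th_lip R _ _) ?_⟩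
    have := hM u v huv hv
    linarith
  set g : LittleLip T := ⟨fun v => th R (f v), hmem⟩ with hg
  have hgv : ∀ v, g v = th R (f v) := fun v => rfl
  refine ⟨g, ?_, 2 * R, fun v => by rw [hgv]; exact th_norm hR0 _⟩
  rw [Metric.mem_ball, dist_eq_norm]
  refine lt_of_le_of_lt (norm_le' (C := ε / 2) ?_ ?_) (by linarith)
  · rw [sub_apply', hgv, th_eq (hfR _ (by rw [T.lev_root]; omega)), sub_self, norm_zero]
    positivity
  · intro u v huv
    rw [sub_apply', sub_apply', hgv, hgv]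
    by_cases hv : N ≤ T.lev v
    · have h1 := hN u v huv hv
      have h2 := th_lip R (f v) (f u)
      have h3 : th R (f v) - f v - (th R (f u) - f u) =
          (th R (f v) - th R (f u)) - (f v - f u) := by ring
      rw [h3]
      have h4 := norm_sub_le (th R (f v) - th R (f u)) (f v - f u)
      linarith
    · have h5 := huv.2
      rw [th_eq (hfR v (by omega)), th_eq (hfR u (by omega))]
      simp
      positivity

/-! ### a copy of `c₀` -/

/-- a sequence of vertices whose levels grow by at least two -/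
noncomputable def vs (T : RootedTree V) : ℕ → V
  | 0 => (T.exists_far 0).choose
  | k + 1 => (T.exists_far (T.lev (vs T k) + 1)).choose

theorem vs_zero (T : RootedTree V) : 0 < T.lev (vs T 0) := (T.exists_far 0).choose_spec

theorem vs_succ (T : RootedTree V) (k : ℕ) : T.lev (vs T k) + 1 < T.lev (vs T (k + 1)) :=
  (T.exists_far (T.lev (vs T k) + 1)).choose_spec

theorem vs_mono (T : RootedTree V) : StrictMono fun k => T.lev (vs T k) :=
  strictMono_nat_of_lt_succ fun k => by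
    have := vs_succ T k
    omega

theorem vs_gap (T : RootedTree V) {j k : ℕ} (h : j < k) :
    T.lev (vs T j) + 1 < T.lev (vs T k) := by
  have h1 := vs_succ T j
  have h2 : T.lev (vs T (j + 1)) ≤ T.lev (vs T k) :=
    (vs_mono T).monotone (show j + 1 ≤ k by omega)
  omega

theorem vs_inj (T : RootedTree V) : Function.Injective (vs T) := by
  intro j k h
  exact (vs_mono T).injective (congrArg T.lev h)

/-- the function with value `x_k` at `vs k` and `0` elsewhere -/
noncomputable def iofun (T : RootedTree V) (x : C₀(ℕ, ℂ)) : V → ℂ :=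
  Function.extend (vs T) (fun k => x k) 0

theorem iofun_vs (x : C₀(ℕ, ℂ)) (k : ℕ) : iofun T x (vs T k) = x k :=
  (vs_inj T).extend_apply _ _ _

theorem iofun_of_not {x : C₀(ℕ, ℂ)} {v : V} (h : ¬ ∃ k, vs T k = v) : iofun T x v = 0 := by
  unfold iofun
  rw [Function.extend_apply' _ _ _ h]
  rfl

theorem iofun_le (x : C₀(ℕ, ℂ)) (v : V) : ‖iofun T x v‖ ≤ ‖x‖ := by
  by_cases h : ∃ k, vs T k = v
  · obtain ⟨k, rfl⟩ := h
    rw [iofun_vs]
    exact c0_le x k
  · rw [iofun_of_not h, norm_zero]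
    exact norm_nonneg _

theorem iofun_small {x : C₀(ℕ, ℂ)} {ε : ℝ} (hε : 0 < ε) {K : ℕ} (hK : ∀ k ≥ K, ‖x k‖ < ε)
    {v : V} (hv : T.lev (vs T K) ≤ T.lev v) : ‖iofun T x v‖ < ε := by
  by_cases h : ∃ k, vs T k = v
  · obtain ⟨k, rfl⟩ := h
    rw [iofun_vs]
    exact hK k ((vs_mono T).le_iff_le.mp hv)
  · rw [iofun_of_not h, norm_zero]
    exact hε

theorem iofun_mem (x : C₀(ℕ, ℂ)) : iofun T x ∈ vanishing T := by
  intro ε hε
  obtain ⟨K, hK⟩ := Metric.tendsto_atTop.mp (c0_tendsto x) (ε / 2) (by positivity)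
  have hK' : ∀ k ≥ K, ‖x k‖ < ε / 2 := by
    intro k hk
    have := hK k hk
    rwa [dist_zero_right] at this
  refine ⟨T.lev (vs T K) + 1, fun u v huv hv => ?_⟩
  have h1 := huv.2
  have h2 := iofun_small (T := T) (by positivity) hK' (v := u) (by omega)
  have h3 := iofun_small (T := T) (by positivity) hK' (v := v) (by omega)
  have h4 := norm_sub_le (iofun T x v) (iofun T x u)
  linarith

/-- the embedding of `c₀` as a linear map -/
noncomputable def iolin (T : RootedTree V) : C₀(ℕ, ℂ) →ₗ[ℂ] LittleLip T where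
  toFun x := ⟨iofun T x, iofun_mem x⟩
  map_add' x y := by
    apply ext'
    intro v
    show iofun T (x + y) v = iofun T x v + iofun T y v
    by_cases h : ∃ k, vs T k = v
    · obtain ⟨k, rfl⟩ := h
      rw [iofun_vs, iofun_vs, iofun_vs]
      rfl
    · rw [iofun_of_not h, iofun_of_not h, iofun_of_not h, add_zero]
  map_smul' c x := by
    apply ext'
    intro v
    show iofun T (c • x) v = c * iofun T x v
    by_cases h : ∃ k, vs T k = v
    · obtain ⟨k, rfl⟩ := h
      rw [iofun_vs, iofun_vs]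
      rfl
    · rw [iofun_of_not h, iofun_of_not h, mul_zero]

/-- the embedding of `c₀` -/
noncomputable def io (T : RootedTree V) : C₀(ℕ, ℂ) →L[ℂ] LittleLip T :=
  (iolin T).mkContinuous 2 fun x => norm_le_of_bdd (iofun_le x)

theorem io_apply (x : C₀(ℕ, ℂ)) (v : V) : (io T x) v = iofun T x v := rfl

theorem io_ge (x : C₀(ℕ, ℂ)) : ‖x‖ ≤ ‖io T x‖ := by
  apply c0_norm_le (norm_nonneg _)
  intro k
  have hpos : 0 < T.lev (vs T k) := lt_of_lt_of_le (vs_zero T) ((vs_mono T).monotone (Nat.zero_le k))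
  obtain ⟨u, hu, hun⟩ := T.exists_parent (v := vs T k) (n := T.lev (vs T k) - 1) (by omega)
  have hu' : ¬ ∃ j, vs T j = u := by
    rintro ⟨j, rfl⟩
    have h1 := hu.2
    have hjk : j < k := by
      apply (vs_mono T).lt_iff_lt.mp
      show T.lev (vs T j) < T.lev (vs T k)
      omega
    have := vs_gap T hjk
    omega
  have h2 := edge_le (io T x) hu
  rw [io_apply, io_apply, iofun_vs, iofun_of_not hu', sub_zero] at h2
  exact h2

theorem iterate_apply {φ : V → V} {C : LittleLip T →L[ℂ] LittleLip T}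
    (hC : ∀ (f : LittleLip T) (v : V), (C f) v = f (φ v)) (lam : ℂ) (n : ℕ) (f : LittleLip T)
    (v : V) : (((lam • C) ^ n) f) v = lam ^ n * f (φ^[n] v) := by
  induction n generalizing v with
  | zero => simp
  | succ n ih =>
    rw [pow_succ', mul_apply_eq_comp, _root_.smul_apply, smul_apply', hC, ih,
      Function.iterate_succ_apply, pow_succ']
    ring

theorem iterate_norm {φ : V → V} {C : LittleLip T →L[ℂ] LittleLip T}
    (hC : ∀ (f : LittleLip T) (v : V), (C f) v = f (φ v)) {lam : ℂ} (hlam : ‖lam‖ ≤ 1)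
    {f : LittleLip T} {R : ℝ} (hf : ∀ v, ‖f v‖ ≤ R) (n : ℕ) : ‖((lam • C) ^ n) f‖ ≤ 2 * R := by
  apply norm_le_of_bdd
  intro v
  rw [iterate_apply hC, norm_mul, norm_pow]
  calc ‖lam‖ ^ n * ‖f (φ^[n] v)‖ ≤ 1 * ‖f (φ^[n] v)‖ :=
        mul_le_mul_of_nonneg_right (pow_le_one₀ (norm_nonneg _) hlam) (norm_nonneg _)
    _ ≤ R := by rw [one_mul]; exact hf _

end

/-- `f` is a hypercyclic vector of `A` -/
def Hypercyclic {X : Type*} [NormedAddCommGroup X] [NormedSpace ℂ X] (A : X →L[ℂ] X) (f : X) :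
    Prop :=
  Dense (Set.range fun n : ℕ => (A ^ n) f)

/-- **Q1, answered in the affirmative.**  If `C_φ` is a bounded composition operator on the little
Lipschitz space of a rooted tree, `|lam| ≤ 1` and `lam C_φ` is hypercyclic, then `lam C_φ` has a
hypercyclic subspace. -/
theorem result {V : Type} (T : RootedTree V) (φ : V → V) (C : LittleLip T →L[ℂ] LittleLip T)
    (hC : ∀ (f : LittleLip T) (v : V), (C f) v = f (φ v)) (lam : ℂ) (hlam : ‖lam‖ ≤ 1)
    (hyp : ∃ f, Hypercyclic (lam • C) f) :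
    ∃ M : Submodule ℂ (LittleLip T), IsClosed (M : Set (LittleLip T)) ∧
      ¬ FiniteDimensional ℂ M ∧ ∀ f ∈ M, f ≠ 0 → Hypercyclic (lam • C) f := by
  obtain ⟨x0, hx0⟩ := hyp
  refine subspace_of_c0 (K := 2) hx0 (bdd_dense T) ?_ (io T) io_ge ?_
  · rintro f ⟨R, hR⟩
    exact ⟨2 * R, fun n => iterate_norm hC hlam hR n⟩
  · intro n x
    exact iterate_norm hC hlam (fun v => by rw [io_apply]; exact iofun_le x v) n

end Pool.Agent.Results.MP_b108d3_an.HasSubspace
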